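import Pool.Agent.Q57.FJ.Comb

/-!
Sums of ample toroidal divisors on simplicial toroidal models: the inequalities.
-/

set_option autoImplicit false
set_option linter.overlappingInstances false
set_option linter.unusedSectionVars false
set_option maxHeartbeats 1000000

open Pool.Agent.Y169.CH Pool.Agent.Q57.GE Pool.Agent.Q57.FT

namespace Pool.Agent.Q57.FJ

variable {r R : ℕ} {m : Fin R → ℕ} {a : Fin R → Fin r → ℕ} {S : Finset (Finset (Fin r → ℕ))}

/-- the data of an ample toroidal Cartier divisor -/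
structure Amp (m : Fin R → ℕ) (a : Fin R → Fin r → ℕ) (S : Finset (Finset (Fin r → ℕ)))
    (d : Fin r → ℕ) (c : (Fin r → ℕ) → ℚ) (β : Fin r → ℤ)
    (u : Finset (Fin r → ℕ) → Fin r → ℚ) : Prop where
  lin : ∀ σ ∈ S, ∀ v, Adm m a v → InC σ v → - c v = ev (u σ) (cst v)
  int : ∀ v, Adm m a v → ∃ z : ℤ, c v = z
  deg : ∀ σ ∈ S, ∀ t, d t * u σ t < β t
  str : ∀ σ ∈ S, ∀ τ ∈ S, ∀ s ∈ τ, s ∉ σ → - c s < ev (u σ) (cst s)

variable {d : Fin r → ℕ} {c : (Fin r → ℕ) → ℚ} {β : Fin r → ℤ}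
  {u : Finset (Fin r → ℕ) → Fin r → ℚ} {σ τ : Finset (Fin r → ℕ)}

/-- the linear functions have integral values at the points of the lattice -/
theorem ev_int (h : Simp m a S) (hlin : ∀ σ ∈ S, ∀ v, Adm m a v → InC σ v →
    - c v = ev (u σ) (cst v)) (hint : ∀ v, Adm m a v → ∃ z : ℤ, c v = z) (hσ : σ ∈ S)
    {v : Fin r → ℕ} (hv : Adm m a v) : ∃ z : ℤ, ev (u σ) (cst v) = z := by
  classical
  obtain ⟨K, hK⟩ := exists_nat_ge (∑ s ∈ σ, |co σ (cst v) s|)
  have hKs : ∀ s ∈ σ, 0 ≤ co σ (cst v) s + K := by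
    intro s hs
    have h1 := Finset.single_le_sum (f := fun s => |co σ (cst v) s|) (fun _ _ => abs_nonneg _) hs
    have h2 := neg_abs_le (co σ (cst v) s)
    linarith
  have hcast : ∀ k, (((v k + ∑ s ∈ σ, K * s k : ℕ)) : ℚ) =
      ∑ s ∈ σ, (co σ (cst v) s + K) * s k := by
    intro k
    have h1 := co_spec h hσ (cst v) k
    unfold cst at h1
    push_cast
    simp only [add_mul]
    rw [Finset.sum_add_distrib]
    unfold cst
    rw [← h1]
  have hadm : Adm m a (fun k => v k + ∑ s ∈ σ, K * s k) := by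
    refine ⟨fun h0 => hv.1 ?_, fun j => ?_⟩
    · funext k
      have h1 := congrFun h0 k
      simp only [Pi.zero_apply] at h1
      rw [Pi.zero_apply]
      omega
    · have h1 : ∑ i, a j i * (v i + ∑ s ∈ σ, K * s i) =
          ∑ i, a j i * v i + ∑ s ∈ σ, K * ∑ i, a j i * s i := by
        simp only [mul_add, Finset.mul_sum]
        rw [Finset.sum_add_distrib]
        congr 1
        rw [Finset.sum_comm]
        exact Finset.sum_congr rfl fun s _ => Finset.sum_congr rfl fun i _ => by ring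
      rw [h1]
      exact Dvd.dvd.add (hv.2 j) (Finset.dvd_sum fun s hs =>
        Dvd.dvd.mul_left ((h.adm σ hσ s hs).2 j) K)
  have hin : InC σ (fun k => v k + ∑ s ∈ σ, K * s k) :=
    inC_of (q := fun s => co σ (cst v) s + K) hKs hcast
  have h1 := hlin σ hσ _ hadm hin
  have h2 : ev (u σ) (cst fun k => v k + ∑ s ∈ σ, K * s k) =
      ev (u σ) (cst v) + ∑ s ∈ σ, (K : ℚ) * ev (u σ) (cst s) := by
    rw [← ev_sum, ← ev_add]
    congr 1
    funext k
    unfold cst
    push_cast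
    rfl
  have h3 : ∀ s ∈ σ, ∃ z : ℤ, (K : ℚ) * ev (u σ) (cst s) = z := by
    intro s hs
    obtain ⟨z, hz⟩ := hint s (h.adm σ hσ s hs)
    refine ⟨K * (-z), ?_⟩
    rw [← hlin σ hσ s (h.adm σ hσ s hs) (inC_mem hs), hz]
    push_cast
    ring
  choose! z hz using h3
  obtain ⟨z0, hz0⟩ := hint _ hadm
  refine ⟨- z0 - ∑ s ∈ σ, z s, ?_⟩
  rw [h2, hz0, Finset.sum_congr rfl hz] at h1
  push_cast
  linarith

variable (h : Simp m a S) (A : Amp m a S d c β u)

include h A

theorem Amp.slack (hσ : σ ∈ S) (hτ : τ ∈ S) {s : Fin r → ℕ} (hs : s ∈ τ) (hsσ : s ∉ σ) :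
    1 ≤ ev (u σ) (cst s) + c s := by
  have hadm := h.adm τ hτ s hs
  obtain ⟨z1, hz1⟩ := A.int s hadm
  obtain ⟨z2, hz2⟩ := ev_int h A.lin A.int hσ hadm
  have h1 := A.str σ hσ τ hτ s hs hsσ
  rw [hz1, hz2] at h1 ⊢
  have h2 : - z1 < z2 := by exact_mod_cast h1
  have h3 : (1 : ℤ) ≤ z2 + z1 := by omega
  exact_mod_cast h3

theorem Amp.nef (hσ : σ ∈ S) (hτ : τ ∈ S) {s : Fin r → ℕ} (hs : s ∈ τ) :
    - c s ≤ ev (u σ) (cst s) := by
  by_cases hsσ : s ∈ σ
  · exact (A.lin σ hσ s (h.adm σ hσ s hsσ) (inC_mem hsσ)).le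
  · exact (A.str σ hσ τ hτ s hs hsσ).le

/-- the linear function of the adjacent cone -/
theorem Amp.adj (hσ : σ ∈ S) {s0 : Fin r → ℕ} (hs0 : s0 ∈ σ) (hτ : τ ∈ S) (hs0τ : s0 ∉ τ)
    (hsub : ∀ s ∈ σ, s ≠ s0 → s ∈ τ) : ∃ l : ℚ, 1 ≤ l ∧
      ∀ f, ev (u τ) f = ev (u σ) f + l * co σ f s0 := by
  classical
  refine ⟨ev (u τ) (cst s0) + c s0, A.slack h hτ hσ hs0 hs0τ, fun f => ?_⟩
  rw [ev_co h hσ (u τ) f, ev_co h hσ (u σ) f, ← Finset.add_sum_erase _ _ hs0,
    ← Finset.add_sum_erase _ (fun s => co σ f s * ev (u σ) (cst s)) hs0]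
  have h1 : ∑ s ∈ σ.erase s0, co σ f s * ev (u τ) (cst s) =
      ∑ s ∈ σ.erase s0, co σ f s * ev (u σ) (cst s) := by
    refine Finset.sum_congr rfl fun s hs => ?_
    have h2 := Finset.mem_of_mem_erase hs
    have h3 := hsub s h2 (Finset.ne_of_mem_erase hs)
    rw [← A.lin σ hσ s (h.adm σ hσ s h2) (inC_mem h2), ← A.lin τ hτ s (h.adm σ hσ s h2)
      (inC_mem h3)]
  rw [h1, ← A.lin σ hσ s0 (h.adm σ hσ s0 hs0) (inC_mem hs0)]
  ring

omit A in
/-- a cone is not in a coordinate hyperplane -/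
theorem Simp.pos (hσ : σ ∈ S) (k : Fin r) : ∃ s ∈ σ, s k ≠ 0 := by
  by_contra hcon
  push Not at hcon
  have h1 := co_spec h hσ (Pi.single k 1) k
  rw [Pi.single_eq_same, Finset.sum_eq_zero fun s hs => by rw [hcon s hs]; simp] at h1
  exact one_ne_zero h1

omit A in
theorem Simp.bd_ne (hσ : σ ∈ S) {s0 : Fin r → ℕ} (k : Fin r)
    (hbd : ∀ s ∈ σ, s ≠ s0 → s k = 0) : s0 ∈ σ ∧ 1 ≤ s0 k := by
  obtain ⟨s, hs, hsk⟩ := h.pos hσ k
  by_cases h1 : s = s0
  · subst h1
    exact ⟨hs, Nat.one_le_iff_ne_zero.2 hsk⟩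
  · exact absurd (hbd s hs h1) hsk

omit A in
theorem Simp.bd_co (hσ : σ ∈ S) {s0 : Fin r → ℕ} (k : Fin r)
    (hbd : ∀ s ∈ σ, s ≠ s0 → s k = 0) (f : Fin r → ℚ) : f k = co σ f s0 * s0 k := by
  have h1 := co_spec h hσ f k
  rw [Finset.sum_eq_single_of_mem s0 (h.bd_ne hσ k hbd).1] at h1
  · exact h1
  · intro s hs hne
    rw [hbd s hs hne, Nat.cast_zero, mul_zero]

/-- the slack is at least the negative coordinates -/
theorem Amp.slack_co (hσ : σ ∈ S) (hτ : τ ∈ S) {s s0 : Fin r → ℕ} (hs : s ∈ τ) (hs0 : s0 ∈ σ)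
    (hneg : co σ (cst s) s0 < 0) : - co σ (cst s) s0 ≤ ev (u σ) (cst s) + c s := by
  rcases wall h hσ hs0 with ⟨k0, hk0⟩ | ⟨σ', hσ', h1, h2⟩
  · exfalso
    have h1 := h.bd_co hσ k0 hk0 (cst s)
    have h2 := (h.bd_ne hσ k0 hk0).2
    have h3 : (1 : ℚ) ≤ s0 k0 := by exact_mod_cast h2
    have h4 : (0 : ℚ) ≤ cst s k0 := by
      unfold cst
      positivity
    nlinarith
  · obtain ⟨l, hl, hf⟩ := A.adj h hσ hs0 hσ' h1 h2
    have h3 := A.nef h hσ' hτ hs
    rw [hf] at h3
    nlinarith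

/-- the degrees are at least the coordinates of the unit vectors -/
theorem Amp.deg_co (hσ : σ ∈ S) {s0 : Fin r → ℕ} (hs0 : s0 ∈ σ) (t : Fin r)
    (hbd : ¬ ∀ s ∈ σ, s ≠ s0 → s t = 0) :
    d t * co σ (Pi.single t 1) s0 ≤ β t - d t * u σ t := by
  have hdt : (0 : ℚ) ≤ d t := by positivity
  rcases wall h hσ hs0 with ⟨k0, hk0⟩ | ⟨σ', hσ', h1, h2⟩
  · have hne : k0 ≠ t := by
      rintro rfl
      exact hbd hk0
    have h1 := h.bd_co hσ k0 hk0 (Pi.single t 1)
    rw [Pi.single_eq_of_ne hne] at h1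
    have h2 := (h.bd_ne hσ k0 hk0).2
    have h3 : (1 : ℚ) ≤ s0 k0 := by exact_mod_cast h2
    have h4 : co σ (Pi.single t 1) s0 = 0 := by
      rcases mul_eq_zero.1 h1.symm with h4 | h4
      · exact h4
      · linarith
    rw [h4, mul_zero]
    linarith [A.deg σ hσ t]
  · obtain ⟨l, hl, hf⟩ := A.adj h hσ hs0 hσ' h1 h2
    have h3 := hf (Pi.single t 1)
    rw [ev_single, ev_single, mul_one, mul_one] at h3
    have h4 := A.deg σ' hσ' t
    rw [h3] at h4
    have h5 := A.deg σ hσ t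
    by_cases hy : co σ (Pi.single t 1) s0 ≤ 0
    · have h6 : d t * co σ (Pi.single t 1) s0 ≤ 0 := mul_nonpos_of_nonneg_of_nonpos hdt hy
      linarith
    · push Not at hy
      have h6 : d t * co σ (Pi.single t 1) s0 ≤ d t * (l * co σ (Pi.single t 1) s0) := by
        refine mul_le_mul_of_nonneg_left ?_ hdt
        nlinarith
      linarith

/-- the degrees are positive integers -/
theorem Amp.deg_one (hdiv : ∀ j i, m j ∣ a j i * d i) (hd : ∀ i, 1 ≤ d i) (hσ : σ ∈ S)
    (t : Fin r) : 1 ≤ β t - d t * u σ t := by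
  classical
  have hadm : Adm m a (Pi.single t (d t)) := by
    refine ⟨fun h0 => ?_, fun j => ?_⟩
    · have h1 := congrFun h0 t
      rw [Pi.single_eq_same, Pi.zero_apply] at h1
      have := hd t
      omega
    · rw [Finset.sum_eq_single t]
      · rw [Pi.single_eq_same]
        exact hdiv j t
      · intro i _ hi
        rw [Pi.single_eq_of_ne hi, mul_zero]
      · intro h1
        exact absurd (Finset.mem_univ _) h1
  obtain ⟨z, hz⟩ := ev_int h A.lin A.int hσ hadm
  have h1 : cst (Pi.single t (d t)) = Pi.single t (d t : ℚ) := by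
    funext k
    unfold cst
    by_cases hk : k = t
    · subst hk
      rw [Pi.single_eq_same, Pi.single_eq_same]
    · rw [Pi.single_eq_of_ne hk, Pi.single_eq_of_ne hk, Nat.cast_zero]
  rw [h1, ev_single] at hz
  have h2 := A.deg σ hσ t
  rw [mul_comm, hz] at h2
  have h3 : z < β t := by exact_mod_cast h2
  have h4 : (1 : ℤ) ≤ β t - z := by omega
  rw [mul_comm, hz]
  exact_mod_cast h4

omit h A in
/-- the comparison of sums -/
theorem assign {ι : Type} {M k : ℕ} (B : Finset ι) (x : ι → ℚ) (t : Fin M → ℚ)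
    (hM : B.card + k ≤ M) (h1 : ∀ j, ∀ i ∈ B, x i ≤ t j) (h2 : ∀ j, 1 ≤ t j) :
    ∑ i ∈ B, x i + k ≤ ∑ j, t j := by
  rcases Nat.eq_zero_or_pos M with hM0 | hM0
  · have h3 : B.card = 0 := by omega
    have h4 : k = 0 := by omega
    subst hM0
    subst h4
    rw [Finset.card_eq_zero] at h3
    rw [h3]
    simp
  have : Nonempty (Fin M) := ⟨⟨0, hM0⟩⟩
  obtain ⟨j0, -, hj0⟩ := Finset.exists_min_image (Finset.univ : Finset (Fin M)) t
    Finset.univ_nonempty
  have h3 : (M : ℚ) * t j0 ≤ ∑ j, t j := by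
    have h4 := Finset.card_nsmul_le_sum Finset.univ t (t j0) fun j hj => hj0 j hj
    rw [Finset.card_univ, Fintype.card_fin, nsmul_eq_mul] at h4
    exact h4
  have h4 : ∑ i ∈ B, x i ≤ B.card * t j0 := by
    have h5 := Finset.sum_le_card_nsmul B x (t j0) fun i hi => h1 j0 i hi
    rw [nsmul_eq_mul] at h5
    exact h5
  have h5 : ((B.card : ℚ) + k) * t j0 ≤ M * t j0 := by
    refine mul_le_mul_of_nonneg_right ?_ (by linarith [h2 j0])
    exact_mod_cast hM
  have h6 : (k : ℚ) ≤ k * t j0 := le_mul_of_one_le_right (by positivity) (h2 j0)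
  linarith

omit h A

/-- **The inequalities for the adjoint divisor.** -/
theorem main_comb (h : Simp m a S) (hd : ∀ i, 1 ≤ d i) (hdiv : ∀ j i, m j ∣ a j i * d i)
    {M : ℕ} {c : Fin M → (Fin r → ℕ) → ℚ} {β : Fin M → Fin r → ℤ}
    {u : Fin M → Finset (Fin r → ℕ) → Fin r → ℚ} (A : ∀ j, Amp m a S d (c j) (β j) (u j))
    {ψ : (Fin r → ℕ) → ℚ} {w : Finset (Fin r → ℕ) → Fin r → ℚ}
    (hψ : ∀ σ ∈ S, ∀ v, Adm m a v → InC σ v → ψ v = ev (w σ) (cst v))
    (h01 : ∀ σ ∈ S, ∀ s ∈ σ, 0 ≤ ψ s ∧ ψ s ≤ 1) {n : Fin r → ℕ}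
    (hM : ∀ t, n t + r ≤ M) :
    (∀ σ ∈ S, ∀ t, d t * (w σ t - 1 + ∑ j, u j σ t) ≤ ∑ j, (β j t : ℚ) - ((n t : ℚ) + 1)) ∧
      ∀ σ ∈ S, ∀ τ ∈ S, ∀ s ∈ τ, ψ s - ∑ k, (s k : ℚ) - ∑ j, c j s ≤
        ∑ k, (w σ k - 1 + ∑ j, u j σ k) * s k := by
  classical
  have hw : ∀ σ ∈ S, ∀ f, ev (w σ) f = ∑ s ∈ σ, co σ f s * ψ s := by
    intro σ hσ f
    rw [ev_co h hσ]
    refine Finset.sum_congr rfl fun s hs => ?_
    rw [hψ σ hσ s (h.adm σ hσ s hs) (inC_mem hs)]
  constructor
  · intro σ hσ t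
    have hdt : (1 : ℚ) ≤ d t := by exact_mod_cast hd t
    have hcard := card_le h hσ
    have hwt : w σ t = ∑ s ∈ σ, co σ (Pi.single t 1) s * ψ s := by
      rw [← hw σ hσ, ev_single, mul_one]
    have hsum : ∑ j, ((β j t : ℚ) - d t * u j σ t) =
        ∑ j, (β j t : ℚ) - d t * ∑ j, u j σ t := by
      rw [Finset.sum_sub_distrib, ← Finset.mul_sum]
    have hg1 : ∀ j, (1 : ℚ) ≤ β j t - d t * u j σ t := fun j => (A j).deg_one h hdiv hd hσ t
    -- the contribution of one wall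
    have hterm : ∀ s ∈ σ, d t * (co σ (Pi.single t 1) s * ψ s) ≤
        max 0 (d t * co σ (Pi.single t 1) s) := by
      intro s hs
      obtain ⟨h1, h2⟩ := h01 σ hσ s hs
      by_cases hy : co σ (Pi.single t 1) s ≤ 0
      · refine le_trans ?_ (le_max_left _ _)
        have h3 : co σ (Pi.single t 1) s * ψ s ≤ 0 := mul_nonpos_of_nonpos_of_nonneg hy h1
        exact mul_nonpos_of_nonneg_of_nonpos (by linarith) h3
      · push Not at hy
        refine le_trans ?_ (le_max_right _ _)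
        refine mul_le_mul_of_nonneg_left ?_ (by linarith)
        nlinarith
    have hmax : ∀ j, ∀ s ∈ σ, ¬ (∀ s' ∈ σ, s' ≠ s → s' t = 0) →
        max 0 (d t * co σ (Pi.single t 1) s) ≤ β j t - d t * u j σ t := by
      intro j s hs hbd
      refine max_le ?_ ((A j).deg_co h hσ hs t hbd)
      linarith [hg1 j]
    by_cases hbd : ∃ s0 ∈ σ, ∀ s ∈ σ, s ≠ s0 → s t = 0
    · obtain ⟨s0, hs0, hbd⟩ := hbd
      have h1 := assign (k := n t + 1) (σ.erase s0)
        (fun s => max 0 (d t * co σ (Pi.single t 1) s))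
        (fun j => (β j t : ℚ) - d t * u j σ t) (by
          have h2 := hM t
          rw [Finset.card_erase_of_mem hs0]
          have h3 : 0 < σ.card := Finset.card_pos.2 ⟨s0, hs0⟩
          omega) (fun j s hs => hmax j s (Finset.mem_of_mem_erase hs) fun hcon => by
            have h2 := (h.bd_ne hσ t hbd).2
            have h3 := hcon s0 hs0 (Finset.ne_of_mem_erase hs).symm
            omega) hg1
      rw [hsum] at h1
      have h2 : d t * (co σ (Pi.single t 1) s0 * ψ s0) ≤ d t := by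
        have h3 := h.bd_co hσ t hbd (Pi.single t 1)
        rw [Pi.single_eq_same] at h3
        have h4 := (h.bd_ne hσ t hbd).2
        have h5 : (1 : ℚ) ≤ s0 t := by exact_mod_cast h4
        have h6 : 0 < co σ (Pi.single t 1) s0 := by
          by_contra hcon
          push Not at hcon
          nlinarith
        have h7 : co σ (Pi.single t 1) s0 ≤ 1 := by nlinarith
        have h8 := h01 σ hσ s0 hs0
        have h9 : co σ (Pi.single t 1) s0 * ψ s0 ≤ 1 := by nlinarith
        nlinarith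
      have h3 : d t * w σ t ≤ d t + ∑ s ∈ σ.erase s0, max 0 (d t * co σ (Pi.single t 1) s) := by
        rw [hwt, Finset.mul_sum, ← Finset.add_sum_erase _ _ hs0]
        exact add_le_add h2 (Finset.sum_le_sum fun s hs => hterm s (Finset.mem_of_mem_erase hs))
      push_cast at h1
      linarith
    · have h1 := assign (k := n t) σ
        (fun s => max 0 (d t * co σ (Pi.single t 1) s))
        (fun j => (β j t : ℚ) - d t * u j σ t) (by
          have h2 := hM t
          omega) (fun j s hs => hmax j s hs fun hcon => hbd ⟨s, hs, hcon⟩) hg1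
      rw [hsum] at h1
      have h3 : d t * w σ t ≤ ∑ s ∈ σ, max 0 (d t * co σ (Pi.single t 1) s) := by
        rw [hwt, Finset.mul_sum]
        exact Finset.sum_le_sum fun s hs => hterm s hs
      linarith
  · intro σ hσ τ hτ s hs
    have hadm := h.adm τ hτ s hs
    have hexp : ∑ k, (w σ k - 1 + ∑ j, u j σ k) * (s k : ℚ) =
        ev (w σ) (cst s) - ∑ k, (s k : ℚ) + ∑ j, ev (u j σ) (cst s) := by
      unfold ev cst
      rw [Finset.sum_comm, ← Finset.sum_sub_distrib, ← Finset.sum_add_distrib]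
      refine Finset.sum_congr rfl fun k _ => ?_
      rw [← Finset.sum_mul]
      ring
    rw [hexp]
    by_cases hsσ : s ∈ σ
    · rw [← hψ σ hσ s hadm (inC_mem hsσ)]
      have h1 : ∑ j, ev (u j σ) (cst s) = ∑ j, - c j s :=
        Finset.sum_congr rfl fun j _ => ((A j).lin σ hσ s hadm (inC_mem hsσ)).symm
      rw [h1, Finset.sum_neg_distrib]
      linarith
    · have hcard := card_le h hσ
      have hr : 0 < r := by
        by_contra hr
        apply hadm.1
        funext k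
        exact absurd k.2 (by omega)
      have h1 := assign (k := 1) (σ.filter fun s0 => co σ (cst s) s0 < 0)
        (fun s0 => - co σ (cst s) s0) (fun j => ev (u j σ) (cst s) + c j s) (by
          have h2 := hM ⟨0, hr⟩
          have h3 := Finset.card_filter_le σ fun s0 => co σ (cst s) s0 < 0
          by_cases hn : n ⟨0, hr⟩ = 0
          · -- not all coordinates are negative
            have h4 : (σ.filter fun s0 => co σ (cst s) s0 < 0).card < σ.card := by
              apply Finset.card_lt_card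
              refine Finset.filter_ssubset.2 ?_
              by_contra hcon
              push Not at hcon
              apply hadm.1
              funext k
              have h5 := co_spec h hσ (cst s) k
              have h6 : ∑ s0 ∈ σ, co σ (cst s) s0 * (s0 k : ℚ) ≤ 0 :=
                Finset.sum_nonpos fun s0 hs0 => mul_nonpos_of_nonpos_of_nonneg
                  (hcon s0 hs0).le (by positivity)
              rw [← h5] at h6
              unfold cst at h6
              have h7 : s k ≤ 0 := by exact_mod_cast h6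
              rw [Pi.zero_apply]
              omega
            omega
          · omega) (fun j s0 hs0 => by
            obtain ⟨h2, h3⟩ := Finset.mem_filter.1 hs0
            exact (A j).slack_co h hσ hτ hs h2 h3) fun j => (A j).slack h hσ hτ hs hsσ
      rw [Finset.sum_add_distrib] at h1
      have h2 : - ev (w σ) (cst s) ≤ ∑ s0 ∈ σ.filter (fun s0 => co σ (cst s) s0 < 0),
          - co σ (cst s) s0 := by
        rw [hw σ hσ, ← Finset.sum_neg_distrib, Finset.sum_filter]
        refine Finset.sum_le_sum fun s0 hs0 => ?_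
        obtain ⟨h3, h4⟩ := h01 σ hσ s0 hs0
        split_ifs with h5
        · nlinarith
        · push Not at h5
          nlinarith
      have h3 := (h01 τ hτ s hs).2
      push_cast at h1
      linarith

end Pool.Agent.Q57.FJ
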