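import Pool.Agent.Q57.FT.Fan

/-!
Simplicial fans in the positive orthant: the walls of the maximal cones.
-/

set_option autoImplicit false
set_option linter.overlappingInstances false
set_option linter.unusedSectionVars false
set_option maxHeartbeats 1000000

open Pool.Agent.Y169.CH Pool.Agent.Q57.GE Pool.Agent.Q57.FT

namespace Pool.Agent.Q57.FJ

variable {r R : ℕ} {m : Fin R → ℕ} {a : Fin R → Fin r → ℕ} {S : Finset (Finset (Fin r → ℕ))}

/-- the value of a linear function -/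
def ev (u f : Fin r → ℚ) : ℚ := ∑ k, u k * f k

/-- a vector of natural numbers as a rational vector -/
def cst (s : Fin r → ℕ) : Fin r → ℚ := fun k => s k

theorem ev_add (u f g : Fin r → ℚ) : ev u (fun k => f k + g k) = ev u f + ev u g := by
  unfold ev
  rw [← Finset.sum_add_distrib]
  exact Finset.sum_congr rfl fun k _ => by ring

theorem ev_sum {ι : Type} (u : Fin r → ℚ) (A : Finset ι) (q : ι → ℚ) (g : ι → Fin r → ℚ) :
    ev u (fun k => ∑ s ∈ A, q s * g s k) = ∑ s ∈ A, q s * ev u (g s) := by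
  unfold ev
  simp only [Finset.mul_sum]
  rw [Finset.sum_comm]
  exact Finset.sum_congr rfl fun s _ => Finset.sum_congr rfl fun k _ => by ring

theorem ev_single (u : Fin r → ℚ) (t : Fin r) (x : ℚ) : ev u (Pi.single t x) = u t * x := by
  classical
  unfold ev
  rw [Finset.sum_eq_single t]
  · rw [Pi.single_eq_same]
  · intro k _ hk
    rw [Pi.single_eq_of_ne hk, mul_zero]
  · intro h
    exact absurd (Finset.mem_univ _) h

/-- a simplicial fan -/
structure Simp (m : Fin R → ℕ) (a : Fin R → Fin r → ℕ) (S : Finset (Finset (Fin r → ℕ))) :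
    Prop extends Fan m a S where
  free : ∀ σ ∈ S, ∀ q : (Fin r → ℕ) → ℚ, (∀ k, ∑ s ∈ σ, q s * s k = 0) → ∀ s ∈ σ, q s = 0
  meet : ∀ σ ∈ S, ∀ τ ∈ S, ∀ v, InC σ v → InC τ v → InC (σ ∩ τ) v

open Classical in
/-- the coordinates of a vector -/
noncomputable def co (σ : Finset (Fin r → ℕ)) (f : Fin r → ℚ) (s : Fin r → ℕ) : ℚ :=
  if h : ∃ q : (Fin r → ℕ) → ℚ, ∀ k, f k = ∑ s ∈ σ, q s * s k then h.choose s else 0

variable (h : Simp m a S) {σ τ : Finset (Fin r → ℕ)}

include h

theorem co_spec (hσ : σ ∈ S) (f : Fin r → ℚ) (k : Fin r) : f k = ∑ s ∈ σ, co σ f s * s k := by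
  have h1 := h.full σ hσ f
  unfold co
  simp only [dif_pos h1]
  exact h1.choose_spec k

theorem co_uniq (hσ : σ ∈ S) {f : Fin r → ℚ} {q : (Fin r → ℕ) → ℚ}
    (hq : ∀ k, f k = ∑ s ∈ σ, q s * s k) {s : Fin r → ℕ} (hs : s ∈ σ) : co σ f s = q s := by
  have h1 := h.free σ hσ (fun s => co σ f s - q s) (fun k => by
    simp only [sub_mul]
    rw [Finset.sum_sub_distrib, ← co_spec h hσ f k, ← hq k, sub_self]) s hs
  linarith

theorem co_fun (hσ : σ ∈ S) (f : Fin r → ℚ) :
    f = fun k => ∑ s ∈ σ, co σ f s * cst s k := by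
  funext k
  exact co_spec h hσ f k

theorem ev_co (hσ : σ ∈ S) (u f : Fin r → ℚ) : ev u f = ∑ s ∈ σ, co σ f s * ev u (cst s) := by
  conv_lhs => rw [co_fun h hσ f]
  exact ev_sum u σ _ _

theorem co_nonneg (hσ : σ ∈ S) {v : Fin r → ℕ} (hv : InC σ v) {s : Fin r → ℕ} (hs : s ∈ σ) :
    0 ≤ co σ (cst v) s := by
  obtain ⟨w, hw, hwv⟩ := hv
  rw [co_uniq h hσ (f := cst v) (q := w) hwv hs]
  exact hw s

omit h in
theorem inC_of {v : Fin r → ℕ} {q : (Fin r → ℕ) → ℚ} (hq : ∀ s ∈ σ, 0 ≤ q s)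
    (hv : ∀ k, (v k : ℚ) = ∑ s ∈ σ, q s * s k) : InC σ v := by
  classical
  refine ⟨fun s => if s ∈ σ then q s else 0, fun s => ?_, fun k => ?_⟩
  · dsimp only
    split_ifs with h1
    · exact hq s h1
    · exact le_rfl
  · rw [hv k]
    refine Finset.sum_congr rfl fun s hs => ?_
    dsimp only
    rw [if_pos hs]

omit h in
theorem sum_meet (w : (Fin r → ℕ) → ℚ) (k : Fin r) [DecidableEq (Fin r → ℕ)] :
    ∑ s ∈ σ ∩ τ, w s * (s k : ℚ) = ∑ s ∈ σ, (if s ∈ τ then w s else 0) * s k := by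
  simp only [ite_mul, zero_mul]
  rw [Finset.sum_ite_mem]

/-- the coordinates on a common face -/
theorem co_meet (hσ : σ ∈ S) (hτ : τ ∈ S) {v : Fin r → ℕ} (hvσ : InC σ v) (hvτ : InC τ v)
    {s : Fin r → ℕ} (hs : s ∈ σ) :
    (s ∈ τ → co σ (cst v) s = co τ (cst v) s) ∧ (s ∉ τ → co σ (cst v) s = 0) := by
  classical
  obtain ⟨w, hw, hwv⟩ := h.meet σ hσ τ hτ v hvσ hvτ
  have h1 : ∀ k, cst v k = ∑ s ∈ σ, (if s ∈ τ then w s else 0) * s k := by
    intro k
    rw [← sum_meet]
    exact hwv k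
  have h2 : ∀ k, cst v k = ∑ s ∈ τ, (if s ∈ σ then w s else 0) * s k := by
    intro k
    rw [← sum_meet, Finset.inter_comm]
    exact hwv k
  constructor
  · intro hsτ
    rw [co_uniq h hσ h1 hs, co_uniq h hτ h2 hsτ, if_pos hsτ, if_pos hs]
  · intro hsτ
    rw [co_uniq h hσ h1 hs, if_neg hsτ]

theorem inC_mem_iff (hσ : σ ∈ S) (hτ : τ ∈ S) {s : Fin r → ℕ} (hs : s ∈ τ) :
    InC σ s ↔ s ∈ σ := by
  classical
  constructor
  · intro h1
    by_contra hcon
    have h2 := (co_meet h hτ hσ (inC_mem hs) h1 hs).2 hcon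
    have h3 := co_uniq h hτ (f := cst s) (q := fun t => if t = s then 1 else 0) (fun k => by
      simp only [ite_mul, zero_mul, one_mul]
      rw [Finset.sum_ite_eq' τ s, if_pos hs]
      rfl) hs
    rw [h2] at h3
    simp at h3
  · exact inC_mem

theorem card_le (hσ : σ ∈ S) : σ.card ≤ r := by
  classical
  have hli : LinearIndependent ℚ (fun s : σ => cst s.1) := by
    rw [Fintype.linearIndependent_iff]
    intro g hg s
    have h1 := h.free σ hσ (fun t => if ht : t ∈ σ then g ⟨t, ht⟩ else 0) (fun k => by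
      rw [← Finset.sum_coe_sort]
      have h2 := congrFun hg k
      rw [Finset.sum_apply] at h2
      rw [Pi.zero_apply] at h2
      rw [← h2]
      refine Finset.sum_congr rfl fun i _ => ?_
      rw [dif_pos i.2]
      rfl) s.1 s.2
    rw [dif_pos s.2] at h1
    exact h1
  have h1 := hli.fintype_card_le_finrank
  rw [Fintype.card_coe] at h1
  simpa using h1

/-- **The walls**: a facet of a maximal cone is in a coordinate hyperplane, or it is a facet of
another maximal cone. -/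
theorem wall (hσ : σ ∈ S) {s0 : Fin r → ℕ} (hs0 : s0 ∈ σ) :
    (∃ k0, ∀ s ∈ σ, s ≠ s0 → s k0 = 0) ∨
      ∃ σ' ∈ S, s0 ∉ σ' ∧ ∀ s ∈ σ, s ≠ s0 → s ∈ σ' := by
  classical
  by_cases hbd : ∃ k0, ∀ s ∈ σ, s ≠ s0 → s k0 = 0
  · exact Or.inl hbd
  right
  push Not at hbd
  obtain ⟨q, hq⟩ : ∃ q : Fin r → ℕ, q = ∑ s ∈ σ.erase s0, s := ⟨_, rfl⟩
  have hq1 : ∀ k, 1 ≤ q k := by
    intro k
    obtain ⟨s, hs, hne, hsk⟩ := hbd k
    rw [hq, Finset.sum_apply]
    have h1 := Finset.single_le_sum (f := fun s : Fin r → ℕ => s k) (fun _ _ => Nat.zero_le _)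
      (Finset.mem_erase.2 ⟨hne, hs⟩)
    omega
  obtain ⟨B, hB⟩ : ∃ B : ℕ, ∀ k, s0 k < B := by
    refine ⟨∑ k, s0 k + 1, fun k => ?_⟩
    have h1 := Finset.single_le_sum (f := s0) (fun _ _ => Nat.zero_le _) (Finset.mem_univ k)
    omega
  have hlt : ∀ K, B ≤ K → ∀ k, s0 k < K * q k := by
    intro K hK k
    have h1 := hB k
    have h2 : K * 1 ≤ K * q k := Nat.mul_le_mul_left K (hq1 k)
    omega
  have hdq : ∀ j, m j ∣ ∑ i, a j i * q i := by
    intro j
    have h1 : ∑ i, a j i * q i = ∑ s ∈ σ.erase s0, ∑ i, a j i * s i := by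
      rw [Finset.sum_comm]
      refine Finset.sum_congr rfl fun i _ => ?_
      rw [hq, Finset.sum_apply, Finset.mul_sum]
    rw [h1]
    exact Finset.dvd_sum fun s hs => (h.adm σ hσ s (Finset.mem_of_mem_erase hs)).2 j
  have hadm : ∀ K, B ≤ K → 0 < r → Adm m a (fun k => K * q k - s0 k) := by
    intro K hK hr
    refine ⟨fun h0 => ?_, fun j => ?_⟩
    · have h1 := congrFun h0 ⟨0, hr⟩
      have h2 := hlt K hK ⟨0, hr⟩
      simp only [Pi.zero_apply] at h1
      omega
    · have h1 : ∑ i, a j i * (K * q i - s0 i) = K * (∑ i, a j i * q i) - ∑ i, a j i * s0 i := by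
        have h2 : ∑ i, a j i * (K * q i - s0 i) + ∑ i, a j i * s0 i =
            K * ∑ i, a j i * q i := by
          rw [← Finset.sum_add_distrib, Finset.mul_sum]
          refine Finset.sum_congr rfl fun i _ => ?_
          have h3 := hlt K hK i
          rw [← mul_add, Nat.sub_add_cancel h3.le]
          ring
        omega
      rw [h1]
      exact Nat.dvd_sub (Dvd.dvd.mul_left (hdq j) K) ((h.adm σ hσ s0 hs0).2 j)
  have hr : 0 < r := by
    by_contra hr
    have h1 := (h.adm σ hσ s0 hs0).1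
    apply h1
    funext k
    exact absurd k.2 (by omega)
  -- a cone which contains infinitely many of the vectors
  obtain ⟨σ', hσ', hinf⟩ : ∃ σ' ∈ S, ∀ K0 : ℕ, ∃ K, K0 ≤ K ∧ B ≤ K ∧
      InC σ' (fun k => K * q k - s0 k) := by
    by_contra hcon
    push Not at hcon
    choose! K0 hK0 using hcon
    obtain ⟨σ', hσ', h1⟩ := h.cover _ (hadm (∑ τ ∈ S, K0 τ + B) (by omega) hr)
    refine hK0 σ' hσ' _ ?_ (by omega) h1
    have h2 := Finset.single_le_sum (f := K0) (fun _ _ => Nat.zero_le _) hσ'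
    omega
  have hcast : ∀ K, B ≤ K → ∀ k, (((K * q k - s0 k : ℕ)) : ℚ) = K * (q k : ℚ) - s0 k := by
    intro K hK k
    rw [Nat.cast_sub (hlt K hK k).le]
    push_cast
    ring
  -- the coordinates of the vectors in this cone
  have hcoord : ∀ K, B ≤ K → ∀ s ∈ σ', co σ' (cst fun k => K * q k - s0 k) s =
      K * co σ' (cst q) s - co σ' (cst s0) s := by
    intro K hK s hs
    refine co_uniq h hσ' (q := fun s => K * co σ' (cst q) s - co σ' (cst s0) s) (fun k => ?_) hs
    have h1 := co_spec h hσ' (cst q) k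
    have h2 := co_spec h hσ' (cst s0) k
    simp only [sub_mul, mul_assoc]
    rw [Finset.sum_sub_distrib, ← Finset.mul_sum, ← h1, ← h2]
    exact hcast K hK k
  have hqσ' : InC σ' q := by
    refine inC_of (q := co σ' (cst q)) (fun s hs => ?_) fun k => co_spec h hσ' (cst q) k
    by_contra hneg
    push Not at hneg
    obtain ⟨K1, hK1⟩ := exists_nat_gt (co σ' (cst s0) s / co σ' (cst q) s)
    obtain ⟨K, hK0, hKB, hK⟩ := hinf K1
    have h1 := co_nonneg h hσ' hK hs
    rw [hcoord K hKB s hs] at h1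
    have h2 : co σ' (cst s0) s / co σ' (cst q) s < K := hK1.trans_le (by exact_mod_cast hK0)
    rw [div_lt_iff_of_neg hneg] at h2
    linarith
  have hqco : ∀ s ∈ σ, co σ (cst q) s = if s = s0 then 0 else 1 := by
    intro s hs
    refine co_uniq h hσ (q := fun s => if s = s0 then 0 else 1) (fun k => ?_) hs
    simp only [ite_mul, zero_mul, one_mul]
    rw [← Finset.sum_erase σ (a := s0) (by rw [if_pos rfl])]
    unfold cst
    rw [hq, Finset.sum_apply]
    push_cast
    refine Finset.sum_congr rfl fun s hs => ?_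
    rw [if_neg (Finset.ne_of_mem_erase hs)]
  have hqσ : InC σ q := by
    refine inC_of (q := fun s => co σ (cst q) s) (fun s hs => ?_) fun k => co_spec h hσ (cst q) k
    rw [hqco s hs]
    split_ifs
    · exact le_rfl
    · exact zero_le_one
  have hmem : ∀ s ∈ σ, s ≠ s0 → s ∈ σ' := by
    intro s hs hne
    by_contra hcon
    have h1 := (co_meet h hσ hσ' hqσ hqσ' hs).2 hcon
    rw [hqco s hs, if_neg hne] at h1
    exact one_ne_zero h1
  refine ⟨σ', hσ', fun hcon => ?_, hmem⟩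
  -- if the vertex were in the other cone
  have hsub : ∀ s ∈ σ, s ∈ σ' := by
    intro s hs
    by_cases hne : s = s0
    · rw [hne]
      exact hcon
    · exact hmem s hs hne
  obtain ⟨K, -, hKB, hK⟩ := hinf 0
  have h1 := co_nonneg h hσ' hK hcon
  rw [hcoord K hKB s0 hcon] at h1
  have h2 : co σ' (cst q) s0 = 0 := by
    have h3 := (co_meet h hσ hσ' hqσ hqσ' hs0).1 hcon
    rw [← h3, hqco s0 hs0, if_pos rfl]
  have h3 : co σ' (cst s0) s0 = 1 := by
    rw [co_uniq h hσ' (f := cst s0) (q := fun t => if t = s0 then 1 else 0) (fun k => by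
      simp only [ite_mul, zero_mul, one_mul]
      rw [Finset.sum_ite_eq' σ' s0, if_pos hcon]
      rfl) hcon]
    simp
  rw [h2, h3] at h1
  linarith

end Pool.Agent.Q57.FJ
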