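import Pool.Agent.Q57.FJ.Top

/-!
Freeness of adjoint divisors on toroidal models of covers of products of projective spaces: the main
theorem.
-/

set_option autoImplicit false
set_option linter.overlappingInstances false
set_option linter.unusedSectionVars false
set_option maxHeartbeats 1000000

open FF MvPolynomial Pool.Agent.W603.LV Pool.Agent.W602.GT Pool.Agent.W602.Cov
open Pool.Agent.TH756.PR Pool.Agent.TH122.AB Pool.Agent.TH756.PN
open Pool.Agent.Y169.CH Pool.Agent.Q57.TP Pool.Agent.Q57.TQ Pool.Agent.Q57.GM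
open Pool.Agent.Q57.GH Pool.Agent.Q57.FG Pool.Agent.Q57.FH Pool.Agent.Q57.GG Pool.Agent.Q57.GE
open Pool.Agent.Q57.FT Pool.Agent.Q57.TC Pool.Agent.Q57.UG

namespace Pool.Agent.Q57.FJ

variable {r N R M : ℕ} {n : Fin r → ℕ} {K : Type} [Field K] [Algebra ℂ K]

section

variable {F : ∀ i, MvPolynomial (Fin (n i + 1)) ℂ} {d : Fin r → ℕ} {x : ∀ i, Fin (n i + 1) → K}
  {m : Fin R → ℕ} {a : Fin R → Fin r → ℕ} {z : Fin R → K} {S : Finset (Finset (Fin r → ℕ))}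

/-- the inequalities for one divisor -/
theorem gg_ineq (hr : 1 ≤ r) (hn : ∀ i, 1 ≤ n i) (hN : N = ∑ i, n i)
    (hd : ∀ i, 1 ≤ d i) (hh : ∀ i, (F i).IsHomogeneous (d i)) (hs : ∀ i, SmF (F i))
    (hx0 : ∀ i, x i 0 ≠ 0) (hbas : IsTranscendenceBasis ℂ (aff x)) (hm : ∀ j, 0 < m j)
    (hdiv : ∀ j i, m j ∣ a j i * d i)
    (hz : ∀ j, z j ^ m j = ∏ i, (aeval (x i) (F i) / x i 0 ^ d i) ^ a j i)
    (hgen : IntermediateField.adjoin ℂ (Set.range (aff x) ∪ Set.range z) = ⊤)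
    (hS : Fan m a S) {c : (Fin r → ℕ) → ℚ} {u : Finset (Fin r → ℕ) → Fin r → ℚ}
    (hc : Car m a S c u) {β : Fin r → ℤ} {δ : Place ℂ K → ℚ}
    (hδ : ∀ P, δ P = c (mulQ F d x P) - ∑ t, (β t : ℚ) * minO (x t) P) :
    GG N δ ↔ ∀ σ ∈ S, (∀ t, d t * u σ t ≤ β t) ∧
      ∀ τ ∈ S, ∀ s ∈ τ, - c s ≤ ∑ k, u σ k * s k := by
  obtain ⟨h1, h2⟩ := main_cartier (p := 1) (N := N) hr hn hN hd hh hs hx0 hbas hm hdiv hz hgen hS
    (c := fun _ => c) (fun _ => hc.zero) (u := fun σ _ => u σ)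
    (fun σ hσ _ v hv hvσ => hc.lin σ hσ v hv hvσ) (β := fun _ => β) (δ := fun _ => δ)
    (fun _ P => hδ P) (μ := fun _ => 1) (fun v hv => by
      obtain ⟨z, hz⟩ := hc.int v hv
      exact ⟨z, by simp [hz]⟩)
  rw [gg_iff, ← h1, h2]
  unfold Ineq
  refine forall₂_congr fun σ _ => and_congr (forall_congr' fun t => ?_)
    (forall₂_congr fun τ _ => forall₂_congr fun s _ => ?_)
  · rw [Fin.sum_univ_one, Fin.sum_univ_one]
    push_cast
    rw [one_mul, one_mul]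
    norm_cast
  · simp only [Fin.sum_univ_one, Int.cast_one, one_mul]
    norm_cast

/-- `δ` is ample -/
def AmpD (N : ℕ) (F : ∀ i, MvPolynomial (Fin (n i + 1)) ℂ) (d : Fin r → ℕ)
    (x : ∀ i, Fin (n i + 1) → K) (m : Fin R → ℕ) (a : Fin R → Fin r → ℕ)
    (S : Finset (Finset (Fin r → ℕ))) (δ : Place ℂ K → ℚ) : Prop :=
  ∀ c u (β : Fin r → ℤ), Car m a S c u → ∃ k : ℕ, 1 ≤ k ∧
    GG N fun P => k * δ P + (c (mulQ F d x P) - ∑ t, (β t : ℚ) * minO (x t) P)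

theorem amp_of (hr : 1 ≤ r) (hn : ∀ i, 1 ≤ n i) (hN : N = ∑ i, n i)
    (hd : ∀ i, 1 ≤ d i) (hh : ∀ i, (F i).IsHomogeneous (d i)) (hs : ∀ i, SmF (F i))
    (hx0 : ∀ i, x i 0 ≠ 0) (hbas : IsTranscendenceBasis ℂ (aff x)) (hm : ∀ j, 0 < m j)
    (hdiv : ∀ j i, m j ∣ a j i * d i)
    (hz : ∀ j, z j ^ m j = ∏ i, (aeval (x i) (F i) / x i 0 ^ d i) ^ a j i)
    (hgen : IntermediateField.adjoin ℂ (Set.range (aff x) ∪ Set.range z) = ⊤)
    (hS : Simp m a S) {c : (Fin r → ℕ) → ℚ} {u : Finset (Fin r → ℕ) → Fin r → ℚ}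
    (hc : Car m a S c u) {β : Fin r → ℤ} {δ : Place ℂ K → ℚ}
    (hδ : ∀ P, δ P = c (mulQ F d x P) - ∑ t, (β t : ℚ) * minO (x t) P)
    (hamp : AmpD N F d x m a S δ) : Amp m a S d c β u := by
  -- the divisors `k L + D`
  have key : ∀ c' u' (β' : Fin r → ℤ), Car m a S c' u' → ∃ k : ℕ, 1 ≤ k ∧
      ∀ σ ∈ S, (∀ t, d t * (k * u σ t + u' σ t) ≤ k * β t + β' t) ∧
        ∀ τ ∈ S, ∀ s ∈ τ, - (k * c s + c' s) ≤ ∑ j, (k * u σ j + u' σ j) * s j := by
    intro c' u' β' hc'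
    obtain ⟨k, hk, hg⟩ := hamp c' u' β' hc'
    refine ⟨k, hk, ?_⟩
    have h1 : Car m a S (fun v => k * c v + c' v) (fun σ t => k * u σ t + u' σ t) := by
      refine ⟨by simp [hc.zero, hc'.zero], fun σ hσ v hv hvσ => ?_, fun v hv => ?_⟩
      · have h2 := hc.lin σ hσ v hv hvσ
        have h3 := hc'.lin σ hσ v hv hvσ
        simp only [add_mul, mul_assoc]
        rw [Finset.sum_add_distrib, ← Finset.mul_sum, ← h2, ← h3]
        ring
      · obtain ⟨z1, hz1⟩ := hc.int v hv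
        obtain ⟨z2, hz2⟩ := hc'.int v hv
        exact ⟨k * z1 + z2, by rw [hz1, hz2]; push_cast; ring⟩
    have h2 := (gg_ineq (N := N) hr hn hN hd hh hs hx0 hbas hm hdiv hz hgen hS.toFan h1
      (β := fun t => k * β t + β' t) (δ := fun P => k * δ P +
        (c' (mulQ F d x P) - ∑ t, (β' t : ℚ) * minO (x t) P)) (fun P => by
          rw [hδ P]
          push_cast
          simp only [add_mul, mul_assoc]
          rw [Finset.sum_add_distrib, ← Finset.mul_sum]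
          ring)).1 hg
    intro σ hσ
    obtain ⟨h3, h4⟩ := h2 σ hσ
    refine ⟨fun t => ?_, h4⟩
    have h5 := h3 t
    push_cast at h5
    exact h5
  have hev : ∀ (u : Fin r → ℚ) (s : Fin r → ℕ), ∑ k, u k * s k = ev u (cst s) := fun _ _ => rfl
  refine ⟨fun σ hσ v hv hvσ => ?_, hc.int, fun σ hσ t => ?_, fun σ hσ τ hτ s hsτ hsσ => ?_⟩
  · rw [hc.lin σ hσ v hv hvσ]
    rfl
  · obtain ⟨k, hk, h1⟩ := key 0 0 (fun _ => -1) ⟨rfl, fun σ _ v _ _ => by simp,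
      fun v _ => ⟨0, by simp⟩⟩
    have h2 := (h1 σ hσ).1 t
    simp only [Pi.zero_apply, add_zero] at h2
    push_cast at h2
    have hk' : (1 : ℚ) ≤ k := by exact_mod_cast hk
    by_contra hcon
    push Not at hcon
    have h3 : (k : ℚ) * β t ≤ k * (d t * u σ t) := mul_le_mul_of_nonneg_left hcon (by linarith)
    linarith
  · obtain ⟨e, c', u', he, hc', hcs, hu'⟩ := tent hS hτ hsτ
    obtain ⟨k, hk, h1⟩ := key c' u' 0 hc'
    have h2 := (h1 σ hσ).2 τ hτ s hsτ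
    rw [hu' σ hσ hsσ, hcs] at h2
    simp only [Pi.zero_apply, add_zero, mul_assoc] at h2
    rw [← Finset.mul_sum, hev] at h2
    have hk' : (1 : ℚ) ≤ k := by exact_mod_cast hk
    have he' : (1 : ℚ) ≤ e := by exact_mod_cast he
    by_contra hcon
    push Not at hcon
    have h3 := mul_le_mul_of_nonneg_left hcon (by linarith : (0 : ℚ) ≤ k)
    linarith

/-- **Freeness of adjoint divisors.** -/
theorem main_adj (hr : 1 ≤ r) (hn : ∀ i, 1 ≤ n i) (hN : N = ∑ i, n i)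
    (hd : ∀ i, 1 ≤ d i) (hh : ∀ i, (F i).IsHomogeneous (d i)) (hs : ∀ i, SmF (F i))
    (hx0 : ∀ i, x i 0 ≠ 0) (hbas : IsTranscendenceBasis ℂ (aff x)) (hm : ∀ j, 0 < m j)
    (hdiv : ∀ j i, m j ∣ a j i * d i)
    (hz : ∀ j, z j ^ m j = ∏ i, (aeval (x i) (F i) / x i 0 ^ d i) ^ a j i)
    (hgen : IntermediateField.adjoin ℂ (Set.range (aff x) ∪ Set.range z) = ⊤)
    (hS : Simp m a S) {ψ : (Fin r → ℕ) → ℚ} {w : Finset (Fin r → ℕ) → Fin r → ℚ}
    (hψ0 : ψ 0 = 0)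
    (hψ : ∀ σ ∈ S, ∀ v, Adm m a v → InC σ v → ψ v = ∑ k, w σ k * v k)
    (h01 : ∀ σ ∈ S, ∀ s ∈ σ, 0 ≤ ψ s ∧ ψ s ≤ 1)
    (hint : ∀ v, Adm m a v → ∃ z : ℤ, ψ v = z)
    {c : Fin M → (Fin r → ℕ) → ℚ} {u : Fin M → Finset (Fin r → ℕ) → Fin r → ℚ}
    (hc : ∀ j, Car m a S (c j) (u j)) {β : Fin M → Fin r → ℤ} {δ : Fin M → Place ℂ K → ℚ}
    (hδ : ∀ j P, δ j P = c j (mulQ F d x P) - ∑ t, (β j t : ℚ) * minO (x t) P)
    (hamp : ∀ j, AmpD N F d x m a S (δ j)) (hM : ∀ t, n t + r ≤ M) :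
    WG N fun P => (1 - ψ (mulQ F d x P) - lD F d x P) + ∑ j, δ j P := by
  classical
  have hA : ∀ j, Amp m a S d (c j) (β j) (u j) := fun j =>
    amp_of hr hn hN hd hh hs hx0 hbas hm hdiv hz hgen hS (hc j) (hδ j) (hamp j)
  obtain ⟨h1, h2⟩ := main_comb hS hd hdiv hA (ψ := ψ) (w := w)
    (fun σ hσ v hv hvσ => hψ σ hσ v hv hvσ) h01 hM
  -- the functions
  have hcar : Car m a S (fun v => ∑ k, (v k : ℚ) - ψ v + ∑ j, c j v)
      (fun σ k => w σ k - 1 + ∑ j, u j σ k) := by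
    refine ⟨by simp [hψ0, (hc _).zero], fun σ hσ v hv hvσ => ?_, fun v hv => ?_⟩
    · rw [hψ σ hσ v hv hvσ]
      have h3 : ∑ j, c j v = ∑ j, - ∑ k, u j σ k * v k := by
        refine Finset.sum_congr rfl fun j _ => ?_
        rw [← (hc j).lin σ hσ v hv hvσ, neg_neg]
      rw [h3, Finset.sum_neg_distrib, Finset.sum_comm]
      have h4 : ∀ k, (w σ k - 1 + ∑ j, u j σ k) * (v k : ℚ) =
          w σ k * v k - v k + ∑ j, u j σ k * v k := by
        intro k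
        rw [← Finset.sum_mul]
        ring
      rw [Finset.sum_congr rfl fun k _ => h4 k, Finset.sum_add_distrib, Finset.sum_sub_distrib]
      ring
    · obtain ⟨z0, hz0⟩ := hint v hv
      have h3 : ∀ j, ∃ z : ℤ, c j v = z := fun j => (hc j).int v hv
      choose z1 hz1 using h3
      refine ⟨∑ k, (v k : ℤ) - z0 + ∑ j, z1 j, ?_⟩
      rw [hz0, Finset.sum_congr rfl fun j _ => hz1 j]
      push_cast
      ring
  have hgg : GG N fun P => (∑ k, (mulQ F d x P k : ℚ) - ψ (mulQ F d x P) +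
      ∑ j, c j (mulQ F d x P)) - ∑ t, ((∑ j, β j t - ((n t : ℤ) + 1) : ℤ) : ℚ) *
        minO (x t) P := by
    refine (gg_ineq (N := N) hr hn hN hd hh hs hx0 hbas hm hdiv hz hgen hS.toFan hcar
      (β := fun t => ∑ j, β j t - ((n t : ℤ) + 1)) fun P => rfl).2 fun σ hσ => ⟨fun t => ?_,
        fun τ hτ s hs => ?_⟩
    · have h3 := h1 σ hσ t
      push_cast
      exact h3
    · have h3 := h2 σ hσ τ hτ s hs
      refine le_trans (le_of_eq ?_) h3
      ring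
  -- the forms
  obtain ⟨N', e, Φ, C, x', F', rfl, hΦ, rfl, rfl, H, hvv, hco⟩ :=
    FT.setup (N := N) hr hn hN hd hh hs hx0 hbas hm hdiv hz hgen
  have hY : IsTranscendenceBasis ℂ (uu e x) := basis_uu e hbas
  have hfd : FiniteDimensional (IntermediateField.adjoin ℂ (Set.range (uu e x))) K :=
    fin_all C.fin_Y hY
  have hX : ∏ i, x i 0 ^ (n i + 1) ≠ 0 :=
    Finset.prod_ne_zero_iff.2 fun i _ => pow_ne_zero _ (hx0 i)
  have hform : ∀ g : K, IsPluri 1 fun D => g * om e D x := by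
    intro g
    have h3 := form_pluri (k := ℂ) (uu e x) 1 (g * ∏ i, x i 0 ^ (n i + 1))
    have h5 : ∀ D, g * om e D x = form (uu e x) 1 (g * ∏ i, x i 0 ^ (n i + 1)) D := by
      intro D
      unfold form om
      rw [pow_one, mul_assoc]
    intro A D
    dsimp only
    rw [h5, h5]
    exact h3 A D
  have hΩ : IsPluri 1 fun D => om e D x := by
    have h3 := hform 1
    simp only [one_mul] at h3
    exact h3
  have hΩ0 : (fun D => om e D x) ≠ (0 : (Fin (N' + 1) → Derivation ℂ K K) → K) := by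
    obtain ⟨DY, hDY⟩ := exists_dual hY
    intro h0
    have h3 : om e DY x = 0 := congrFun h0 DY
    unfold om at h3
    rw [hDY, Matrix.det_one, mul_one] at h3
    exact hX h3
  intro P hP
  obtain ⟨f, hf0, hf, hle⟩ := hgg P hP
  have hmo : ∀ P : Place ℂ K, moF (fun D => om e D x) P = moS x P := by
    intro P
    rw [moS_eq e]
    rfl
  have hval : ∀ P : Place ℂ K, (∑ k, (mulQ F d x P k : ℚ) - ψ (mulQ F d x P) +
      ∑ j, c j (mulQ F d x P)) - ∑ t, ((∑ j, β j t - ((n t : ℤ) + 1) : ℤ) : ℚ) *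
        minO (x t) P = ((1 - ψ (mulQ F d x P) - lD F d x P) + ∑ j, δ j P) + moS x P := by
    intro P
    have h3 : ∑ j, δ j P = ∑ j, c j (mulQ F d x P) - ∑ t, (∑ j, (β j t : ℚ)) * minO (x t) P := by
      rw [Finset.sum_congr rfl fun j _ => hδ j P, Finset.sum_sub_distrib, Finset.sum_comm]
      simp only [Finset.sum_mul]
    rw [h3]
    unfold lD
    push_cast
    simp only [sub_mul]
    rw [Finset.sum_sub_distrib]
    ring
  refine ⟨fun D => f * om e D x, ⟨hform f, fun Q hQ D hD => ?_⟩, ?_⟩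
  · dsimp only
    by_cases h0 : om e D x = 0
    · exact Or.inl (by rw [h0, mul_zero])
    right
    have h3 := ((frame_u hY hfd hΩ hΩ0 (P := Q) hQ).2 D hD).resolve_left h0
    rw [hmo] at h3
    have h4 := (hf Q hQ).resolve_left hf0
    dsimp only at h4
    rw [hval Q] at h4
    have h6 : ((moS x Q : ℤ) : ℚ) ≤ ((Q.ord (om e D x) : ℤ) : ℚ) := by exact_mod_cast h3
    rw [Q.ord_mul hf0 h0]
    push_cast
    linarith
  · obtain ⟨D, hD, hD0, hDo⟩ := (frame_u hY hfd hΩ hΩ0 (P := P) hP).1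
    refine ⟨D, hD, mul_ne_zero hf0 hD0, ?_⟩
    rw [hmo] at hDo
    rw [P.ord_mul hf0 hD0, hDo]
    dsimp only at hle ⊢
    rw [hval P] at hle
    push_cast
    linarith

end

end Pool.Agent.Q57.FJ
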