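import Pool.Agent.Q57.FJ.Amp
import Pool.Agent.Q57.TC.SetB
import Pool.Agent.Q57.UG.Form

/-!
Freeness of adjoint divisors on toroidal models of covers of products of projective spaces.
-/

set_option autoImplicit false
set_option linter.overlappingInstances false
set_option linter.unusedSectionVars false
set_option maxHeartbeats 1000000

open FF MvPolynomial Pool.Agent.W603.LV Pool.Agent.W602.GT Pool.Agent.W602.Cov
open Pool.Agent.TH756.PR Pool.Agent.TH122.AB Pool.Agent.TH756.PN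
open Pool.Agent.Y169.CH Pool.Agent.Q57.TP Pool.Agent.Q57.TQ Pool.Agent.Q57.GM
open Pool.Agent.Q57.GH Pool.Agent.Q57.FG Pool.Agent.Q57.FH Pool.Agent.Q57.GG Pool.Agent.Q57.GE
open Pool.Agent.Q57.FT Pool.Agent.Q57.TC Pool.Agent.Q57.UG

namespace Pool.Agent.Q57.FJ

variable {r N R M : ℕ} {n : Fin r → ℕ} {K : Type} [Field K] [Algebra ℂ K]

/-- the function is a section of the divisor with the coefficients `δ` -/
def Fsec (N : ℕ) (δ : Place ℂ K → ℚ) (f : K) : Prop :=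
  ∀ P : Place ℂ K, Divisorial N P → f = 0 ∨ - δ P ≤ P.ord f

/-- the divisor with the coefficients `δ` is globally generated -/
def GG (N : ℕ) (δ : Place ℂ K → ℚ) : Prop :=
  ∀ P : Place ℂ K, Divisorial N P → ∃ f : K, f ≠ 0 ∧ Fsec N δ f ∧ (P.ord f : ℚ) ≤ - δ P

/-- the form is a section of the divisor with the coefficients `δ` -/
def Wsec (N : ℕ) (δ : Place ℂ K → ℚ) (ω : (Fin N → Derivation ℂ K K) → K) : Prop :=
  IsPluri 1 ω ∧ ∀ P : Place ℂ K, Divisorial N P → ∀ D : Fin N → Derivation ℂ K K,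
    (∀ c, DerReg P (D c)) → ω D = 0 ∨ - δ P ≤ P.ord (ω D)

/-- globally generated by forms -/
def WG (N : ℕ) (δ : Place ℂ K → ℚ) : Prop :=
  ∀ P : Place ℂ K, Divisorial N P → ∃ ω, Wsec N δ ω ∧
    ∃ D, (∀ c, DerReg P (D c)) ∧ ω D ≠ 0 ∧ (P.ord (ω D) : ℚ) ≤ - δ P

theorem gg_iff {N : ℕ} {δ : Place ℂ K → ℚ} :
    GG N δ ↔ Bpf N (fun _ : Fin 1 => δ) (fun _ => 1) := by
  unfold GG Bpf Fsec ZSec
  simp only [Fin.sum_univ_one, Int.cast_one, one_mul]

/-- the data of a toroidal Cartier divisor -/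
structure Car (m : Fin R → ℕ) (a : Fin R → Fin r → ℕ) (S : Finset (Finset (Fin r → ℕ)))
    (c : (Fin r → ℕ) → ℚ) (u : Finset (Fin r → ℕ) → Fin r → ℚ) : Prop where
  zero : c 0 = 0
  lin : ∀ σ ∈ S, ∀ v, Adm m a v → InC σ v → - c v = ∑ k, u σ k * v k
  int : ∀ v, Adm m a v → ∃ z : ℤ, c v = z

/-- the tent function of a ray -/
theorem tent {m : Fin R → ℕ} {a : Fin R → Fin r → ℕ} {S : Finset (Finset (Fin r → ℕ))}
    (h : Simp m a S) {τ : Finset (Fin r → ℕ)} (hτ : τ ∈ S) {s : Fin r → ℕ} (hs : s ∈ τ) :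
    ∃ (e : ℕ) (c : (Fin r → ℕ) → ℚ) (u : Finset (Fin r → ℕ) → Fin r → ℚ), 1 ≤ e ∧
      Car m a S c u ∧ c s = - e ∧ ∀ σ ∈ S, s ∉ σ → u σ = 0 := by
  classical
  -- the common denominator
  obtain ⟨e, he⟩ : ∃ e : ℕ, e = ∏ σ ∈ S, ∏ t : Fin r, (co σ (Pi.single t 1) s).den := ⟨_, rfl⟩
  have he1 : 1 ≤ e := by
    rw [he]
    exact Finset.prod_pos fun σ _ => Finset.prod_pos fun t _ => Rat.den_pos _
  have hden : ∀ σ ∈ S, ∀ t, ∃ z : ℤ, (e : ℚ) * co σ (Pi.single t 1) s = z := by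
    intro σ hσ t
    have h1 : (co σ (Pi.single t 1) s).den ∣ e := by
      rw [he]
      exact (Finset.dvd_prod_of_mem (fun t => (co σ (Pi.single t 1) s).den)
        (Finset.mem_univ t)).trans (Finset.dvd_prod_of_mem
        (fun σ => ∏ t : Fin r, (co σ (Pi.single t 1) s).den) hσ)
    obtain ⟨b, hb⟩ := h1
    refine ⟨b * (co σ (Pi.single t 1) s).num, ?_⟩
    have h2 := Rat.mul_den_eq_num (co σ (Pi.single t 1) s)
    rw [hb]
    push_cast
    rw [← h2]
    ring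
  -- the linear functions
  obtain ⟨u, hu⟩ : ∃ u : Finset (Fin r → ℕ) → Fin r → ℚ, ∀ σ t, u σ t =
      if s ∈ σ then e * co σ (Pi.single t 1) s else 0 := ⟨fun σ t => _, fun _ _ => rfl⟩
  have hlin : ∀ σ ∈ S, ∀ v : Fin r → ℕ, ∑ k, u σ k * v k =
      if s ∈ σ then e * co σ (cst v) s else 0 := by
    intro σ hσ v
    by_cases hsσ : s ∈ σ
    · rw [if_pos hsσ]
      have h1 : co σ (cst v) s = ∑ k, (v k : ℚ) * co σ (Pi.single k 1) s := by
        refine co_uniq h hσ (q := fun s => ∑ k, (v k : ℚ) * co σ (Pi.single k 1) s)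
          (fun j => ?_) hsσ
        simp only [Finset.sum_mul]
        rw [Finset.sum_comm]
        have h2 : ∀ k, ∑ s ∈ σ, (v k : ℚ) * co σ (Pi.single k 1) s * (s j : ℚ) =
            v k * (Pi.single k 1 : Fin r → ℚ) j := by
          intro k
          rw [co_spec h hσ (Pi.single k 1) j, Finset.mul_sum]
          exact Finset.sum_congr rfl fun s _ => by ring
        rw [Finset.sum_congr rfl fun k _ => h2 k, Finset.sum_eq_single j]
        · rw [Pi.single_eq_same, mul_one]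
          rfl
        · intro k _ hk
          rw [Pi.single_eq_of_ne (Ne.symm hk), mul_zero]
        · intro h3
          exact absurd (Finset.mem_univ _) h3
      rw [h1, Finset.mul_sum]
      refine Finset.sum_congr rfl fun k _ => ?_
      rw [hu, if_pos hsσ]
      ring
    · rw [if_neg hsσ]
      refine Finset.sum_eq_zero fun k _ => ?_
      rw [hu, if_neg hsσ, zero_mul]
  -- the function
  obtain ⟨c, hc⟩ : ∃ c : (Fin r → ℕ) → ℚ, ∀ v, c v =
      if hv : v ≠ 0 ∧ ∃ σ ∈ S, InC σ v then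
        - ∑ k, u hv.2.choose k * v k else 0 := ⟨fun v => _, fun _ => rfl⟩
  have hc0 : c 0 = 0 := by
    rw [hc, dif_neg]
    rintro ⟨h1, -⟩
    exact h1 rfl
  have hcl : ∀ σ ∈ S, ∀ v, Adm m a v → InC σ v → - c v = ∑ k, u σ k * v k := by
    intro σ hσ v hv hvσ
    have hv' : v ≠ 0 ∧ ∃ σ ∈ S, InC σ v := ⟨hv.1, σ, hσ, hvσ⟩
    rw [hc, dif_pos hv', neg_neg]
    obtain ⟨h1, h2⟩ := hv'.2.choose_spec
    generalize hv'.2.choose = τ' at h1 h2
    rw [hlin τ' h1, hlin σ hσ]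
    by_cases h3 : s ∈ τ'
    · rw [if_pos h3]
      by_cases h4 : s ∈ σ
      · rw [if_pos h4, (co_meet h h1 hσ h2 hvσ h3).1 h4]
      · rw [if_neg h4, (co_meet h h1 hσ h2 hvσ h3).2 h4, mul_zero]
    · rw [if_neg h3]
      by_cases h4 : s ∈ σ
      · rw [if_pos h4, (co_meet h hσ h1 hvσ h2 h4).2 h3, mul_zero]
      · rw [if_neg h4]
  refine ⟨e, c, u, he1, ⟨hc0, hcl, fun v hv => ?_⟩, ?_, fun σ _ hsσ => ?_⟩
  · obtain ⟨σ, hσ, hvσ⟩ := h.cover v hv
    have h1 := hcl σ hσ v hv hvσ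
    have h2 : ∀ k, ∃ z : ℤ, u σ k * v k = z := by
      intro k
      rw [hu]
      by_cases hsσ : s ∈ σ
      · rw [if_pos hsσ]
        obtain ⟨z, hz⟩ := hden σ hσ k
        exact ⟨z * v k, by rw [hz]; push_cast; ring⟩
      · rw [if_neg hsσ]
        exact ⟨0, by simp⟩
    choose z hz using h2
    refine ⟨- ∑ k, z k, ?_⟩
    rw [Finset.sum_congr rfl fun k _ => hz k] at h1
    push_cast
    linarith
  · have h1 := hcl τ hτ s (h.adm τ hτ s hs) (inC_mem hs)
    rw [hlin τ hτ, if_pos hs] at h1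
    have h2 : co τ (cst s) s = 1 := by
      rw [co_uniq h hτ (f := cst s) (q := fun t => if t = s then 1 else 0) (fun k => by
        simp only [ite_mul, zero_mul, one_mul]
        rw [Finset.sum_ite_eq' τ s, if_pos hs]
        rfl) hs]
      simp
    rw [h2, mul_one] at h1
    linarith
  · funext k
    rw [hu, if_neg hsσ]
    rfl

end Pool.Agent.Q57.FJ
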